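import Pool.Agent.T9h79.SP.CompPhi

/-!
# Project SP: the induced map of the heights

Author: helper79.
-/

set_option autoImplicit false

open scoped Manifold ContDiff Topology
open Filter Set Metric

namespace Pool.Agent.T9h79.SP

open Pool.Agent.H718R2.G Pool.Agent.T9h9.SP

local instance fact3 : Fact (Module.finrank ℝ (EuclideanSpace ℝ (Fin 3)) = 2 + 1) :=
  ⟨finrank_euclideanSpace_fin⟩

/-- the meridian -/
noncomputable def mer (α θ : ℝ) : EuclideanSpace ℝ (Fin 3) :=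
  !₂[Real.cos θ * Real.cos α, Real.cos θ * Real.sin α, Real.sin θ]

theorem mer_zero (α θ : ℝ) : mer α θ 0 = Real.cos θ * Real.cos α := by simp [mer]
theorem mer_one (α θ : ℝ) : mer α θ 1 = Real.cos θ * Real.sin α := by simp [mer]
theorem mer_two (α θ : ℝ) : mer α θ 2 = Real.sin θ := by simp [mer]

theorem norm_sq3 (v : EuclideanSpace ℝ (Fin 3)) : ‖v‖ ^ 2 = v 0 ^ 2 + v 1 ^ 2 + v 2 ^ 2 := by
  rw [EuclideanSpace.norm_sq_eq, Fin.sum_univ_three]
  simp

theorem mer_mem (α θ : ℝ) : mer α θ ∈ sphere (0 : EuclideanSpace ℝ (Fin 3)) 1 := by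
  rw [mem_sphere_zero_iff_norm]
  have h : ‖mer α θ‖ ^ 2 = 1 := by
    rw [norm_sq3, mer_zero, mer_one, mer_two]
    have h1 := Real.sin_sq_add_cos_sq θ
    have h2 := Real.sin_sq_add_cos_sq α
    have : (Real.cos θ * Real.cos α) ^ 2 + (Real.cos θ * Real.sin α) ^ 2 + Real.sin θ ^ 2 =
      Real.cos θ ^ 2 * (Real.sin α ^ 2 + Real.cos α ^ 2) + Real.sin θ ^ 2 := by ring
    rw [this, h2]
    linarith
  have h0 : 0 ≤ ‖mer α θ‖ := norm_nonneg _
  nlinarith

theorem mer_smooth (α : ℝ) : ContDiff ℝ ∞ (mer α) := by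
  rw [contDiff_euclidean]
  intro i
  fin_cases i
  · simpa [mer] using Real.contDiff_cos.mul contDiff_const
  · simpa [mer] using Real.contDiff_cos.mul contDiff_const
  · simpa [mer] using Real.contDiff_sin

/-- the meridian on the sphere -/
noncomputable def Mer (α θ : ℝ) : S2 := ⟨mer α θ, mer_mem α θ⟩

theorem u_Mer (α θ : ℝ) : u (Mer α θ) = Real.sin θ := mer_two α θ

theorem Mer_smooth (α : ℝ) : ContMDiff 𝓘(ℝ, ℝ) (𝓡 2) ∞ (Mer α) :=
  ContMDiff.codRestrict_sphere (n := 2) (mer_smooth α).contMDiff (mer_mem α)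

theorem u_smooth : ContMDiff (𝓡 2) 𝓘(ℝ, ℝ) ∞ u := by
  have h1 : ContDiff ℝ ∞ fun v : EuclideanSpace ℝ (Fin 3) => v 2 := by fun_prop
  exact h1.contMDiff.comp (contMDiff_coe_sphere (n := 2))

theorem sq_sum (y : S2) : y.1 0 ^ 2 + y.1 1 ^ 2 + u y ^ 2 = 1 := by
  have h := norm_sq3 y.1
  rw [mem_sphere_zero_iff_norm.1 y.2] at h
  unfold u
  linarith

theorem u_mem (y : S2) : u y ∈ Icc (-1 : ℝ) 1 := by
  have h := sq_sum y
  have h1 : u y ^ 2 ≤ 1 := by nlinarith [sq_nonneg (y.1 0), sq_nonneg (y.1 1)]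
  exact abs_le.1 (abs_le_one_iff_mul_self_le_one.2 (by nlinarith))

theorem ext3 {x y : S2} (h0 : x.1 0 = y.1 0) (h1 : x.1 1 = y.1 1) (h2 : x.1 2 = y.1 2) : x = y := by
  apply Subtype.ext
  ext i
  fin_cases i
  · exact h0
  · exact h1
  · exact h2

/-- a point of a given height which is a pole -/
theorem pole_unique {x y : S2} (h : u x = u y) (h1 : u x ^ 2 = 1) : x = y := by
  have hx := sq_sum x
  have hy := sq_sum y
  have e1 : x.1 0 = 0 := by nlinarith [sq_nonneg (x.1 0), sq_nonneg (x.1 1)]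
  have e2 : x.1 1 = 0 := by nlinarith [sq_nonneg (x.1 0), sq_nonneg (x.1 1)]
  rw [← h] at hy
  have e3 : y.1 0 = 0 := by nlinarith [sq_nonneg (y.1 0), sq_nonneg (y.1 1)]
  have e4 : y.1 1 = 0 := by nlinarith [sq_nonneg (y.1 0), sq_nonneg (y.1 1)]
  exact ext3 (e1.trans e3.symm) (e2.trans e4.symm) h

/-- every point lies on a meridian -/
theorem exists_Mer (y : S2) : ∃ α, Mer α (Real.arcsin (u y)) = y := by
  have hy := sq_sum y
  have hm := u_mem y
  have hcos : Real.cos (Real.arcsin (u y)) = Real.sqrt (1 - u y ^ 2) := Real.cos_arcsin _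
  have hsin : Real.sin (Real.arcsin (u y)) = u y := Real.sin_arcsin hm.1 hm.2
  set w : ℂ := ⟨y.1 0, y.1 1⟩ with hw
  have hn : ‖w‖ = Real.sqrt (1 - u y ^ 2) := by
    rw [Complex.norm_def, Complex.normSq_mk]
    congr 1
    nlinarith
  refine ⟨Complex.arg w, ?_⟩
  apply ext3
  · show mer _ _ 0 = _
    rw [mer_zero, hcos, ← hn, Complex.norm_mul_cos_arg]
  · show mer _ _ 1 = _
    rw [mer_one, hcos, ← hn, Complex.norm_mul_sin_arg]
  · show mer _ _ 2 = _
    rw [mer_two, hsin]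
    rfl

section
variable {r : ℕ∞} (F : DiffM 2 S2 r)

/-- the induced map -/
noncomputable def ind (z : ℝ) : ℝ := u (F (Mer 0 (Real.arcsin z)))

variable {F}

theorem ind_spec (hF : ∀ x y, u x = u y → u (F x) = u (F y)) (y : S2) : u (F y) = ind F (u y) := by
  refine hF _ _ ?_
  rw [u_Mer, Real.sin_arcsin (u_mem y).1 (u_mem y).2]

theorem fun_smooth (hr : 1 ≤ r) (G : DiffM 2 S2 r) (α : ℝ) :
    ContDiff ℝ 1 fun θ => u (G (Mer α θ)) := by
  have hr' : (1 : ℕ∞ω) ≤ (r : ℕ∞ω) := by exact_mod_cast hr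
  have h1 : ContMDiff 𝓘(ℝ, ℝ) 𝓘(ℝ, ℝ) 1 (u ∘ (G ∘ Mer α)) :=
    (u_smooth.of_le (by simp)).comp ((G.contMDiff.of_le hr').comp ((Mer_smooth α).of_le (by simp)))
  exact h1.contDiff

theorem ind_cont (F : DiffM 2 S2 r) : Continuous (ind F) := by
  unfold ind
  exact u_smooth.continuous.comp (F.continuous.comp
    ((Mer_smooth 0).continuous.comp Real.continuous_arcsin))

theorem ind_smooth (hr : 1 ≤ r) {z : ℝ} (hz : z ∈ Ioo (-1 : ℝ) 1) : ContDiffAt ℝ 1 (ind F) z := by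
  have h1 := (fun_smooth hr F 0).contDiffAt (x := Real.arcsin z)
  have h2 : ContDiffAt ℝ 1 Real.arcsin z :=
    Real.contDiffAt_arcsin (by linarith [hz.1]) (by linarith [hz.2])
  exact ContDiffAt.comp z (g := fun θ => u (F (Mer 0 θ))) h1 h2

/-- `F` maps points which are not poles to points which are not poles -/
theorem nonpole (hF : ∀ x y, u x = u y → u (F x) = u (F y)) {x : S2} (hx : u x ^ 2 ≠ 1) :
    u (F x) ^ 2 ≠ 1 := by
  intro h
  -- the opposite point of the parallel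
  have hmem : (!₂[-(x.1 0), -(x.1 1), x.1 2] : EuclideanSpace ℝ (Fin 3)) ∈
      sphere (0 : EuclideanSpace ℝ (Fin 3)) 1 := by
    rw [mem_sphere_zero_iff_norm]
    have h1 : ‖(!₂[-(x.1 0), -(x.1 1), x.1 2] : EuclideanSpace ℝ (Fin 3))‖ ^ 2 = 1 := by
      rw [norm_sq3]
      have := sq_sum x
      unfold u at this
      simpa using this
    have h0 := norm_nonneg (!₂[-(x.1 0), -(x.1 1), x.1 2] : EuclideanSpace ℝ (Fin 3))
    nlinarith
  set x' : S2 := ⟨_, hmem⟩ with hx'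
  have hu : u x' = u x := by simp [u, hx']
  have h2 : F x = F x' := pole_unique (hF _ _ hu.symm) h
  have h3 : x = x' := F.injective h2
  have h4 : x.1 0 = -(x.1 0) := by
    conv_lhs => rw [h3]
    simp [hx']
  have h5 : x.1 1 = -(x.1 1) := by
    conv_lhs => rw [h3]
    simp [hx']
  have h6 := sq_sum x
  have h7 : x.1 0 = 0 := by linarith
  have h8 : x.1 1 = 0 := by linarith
  rw [h7, h8] at h6
  apply hx
  linarith

theorem ind_mem (hF : ∀ x y, u x = u y → u (F x) = u (F y)) {z : ℝ} (hz : z ∈ Ioo (-1 : ℝ) 1) :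
    ind F z ∈ Ioo (-1 : ℝ) 1 := by
  have h1 : u (Mer 0 (Real.arcsin z)) = z := by
    rw [u_Mer, Real.sin_arcsin hz.1.le hz.2.le]
  have h2 : u (Mer 0 (Real.arcsin z)) ^ 2 ≠ 1 := by
    rw [h1]
    have := hz.1
    have := hz.2
    nlinarith
  have h3 := nonpole hF h2
  have h4 := u_mem (F (Mer 0 (Real.arcsin z)))
  unfold ind
  refine ⟨lt_of_le_of_ne h4.1 ?_, lt_of_le_of_ne h4.2 ?_⟩
  · intro h
    apply h3
    rw [← h]
    norm_num
  · intro h
    apply h3
    rw [h]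
    norm_num

theorem ind_deriv (hr : 1 ≤ r) (hF : ∀ x y, u x = u y → u (F x) = u (F y)) {z : ℝ}
    (hz : z ∈ Ioo (-1 : ℝ) 1) : deriv (ind F) z ≠ 0 := by
  set y : S2 := Mer 0 (Real.arcsin z) with hy
  have huy : u y = z := by
    rw [hy, u_Mer, Real.sin_arcsin hz.1.le hz.2.le]
  obtain ⟨α, hα⟩ := exists_Mer (F y)
  set θ := Real.arcsin (u (F y)) with hθ
  have hw : u (F y) ∈ Ioo (-1 : ℝ) 1 := ind_mem hF hz
  have hcos : Real.cos θ ≠ 0 := by
    rw [hθ, Real.cos_arcsin]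
    have := hw.1
    have := hw.2
    exact (Real.sqrt_pos.2 (by nlinarith)).ne'
  -- the function of the inverse
  have hD := (fun_smooth hr F.symm α)
  have hDθ : u (F.symm (Mer α θ)) = z := by
    rw [hα]
    rw [show F.symm (F y) = y from F.symm_apply_apply y, huy]
  have hcomp : (fun t => ind F (u (F.symm (Mer α t)))) = Real.sin := by
    funext t
    rw [← ind_spec hF, show F (F.symm (Mer α t)) = Mer α t from F.apply_symm_apply _, u_Mer]
  intro h0
  have h1 : HasDerivAt (ind F) 0 (u (F.symm (Mer α θ))) := by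
    rw [hDθ, ← h0]
    exact ((ind_smooth hr hz).differentiableAt (by simp)).hasDerivAt
  have h2 : HasDerivAt (fun t => u (F.symm (Mer α t))) (deriv (fun t => u (F.symm (Mer α t))) θ) θ :=
    (hD.differentiable (by simp) θ).hasDerivAt
  have h3 : HasDerivAt (fun t => ind F (u (F.symm (Mer α t))))
      (0 * deriv (fun t => u (F.symm (Mer α t))) θ) θ := HasDerivAt.comp_of_eq θ h1 h2 rfl
  rw [hcomp] at h3
  have h4 := h3.unique (Real.hasDerivAt_sin θ)
  apply hcos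
  rw [← h4]
  simp

theorem one_sub_u {e : ℝ} (he : e ^ 2 = 1) {Q : S2} (hQ : u Q = e) (y : S2) :
    1 - e * u y = ‖y.1 - Q.1‖ ^ 2 / 2 := by
  have h1 := sq_sum Q
  have h2 := sq_sum y
  rw [hQ] at h1
  have e1 : Q.1 0 = 0 := by nlinarith [sq_nonneg (Q.1 0), sq_nonneg (Q.1 1)]
  have e2 : Q.1 1 = 0 := by nlinarith [sq_nonneg (Q.1 0), sq_nonneg (Q.1 1)]
  have e3 : Q.1 2 = e := hQ
  rw [norm_sq3]
  simp only [PiLp.sub_apply]
  rw [e1, e2, e3]
  unfold u at h2 ⊢
  nlinarith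

/-- the behaviour at a pole -/
theorem ind_end (hr : 1 ≤ r) (hF : ∀ x y, u x = u y → u (F x) = u (F y)) {e e' : ℝ}
    (he : e ^ 2 = 1) (he' : e' ^ 2 = 1) (h : ind F e = e') :
    ∃ μ : ℝ, 0 < μ ∧
      Tendsto (fun z => (1 - e' * ind F z) / (1 - e * z)) (𝓝[Ioo (-1 : ℝ) 1] e) (𝓝 μ) := by
  -- the meridian through the pole
  have hee : e = 1 ∨ e = -1 := by
    have : (e - 1) * (e + 1) = 0 := by nlinarith
    rcases mul_eq_zero.1 this with h | h
    · left; linarith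
    · right; linarith
  set m : ℝ → S2 := fun s => Mer 0 (e * (Real.pi / 2 - s)) with hm
  have hum : ∀ s, u (m s) = e * Real.cos s := by
    intro s
    rw [hm]
    simp only []
    rw [u_Mer]
    rcases hee with rfl | rfl
    · rw [one_mul, one_mul, Real.sin_pi_div_two_sub]
    · rw [neg_one_mul, neg_one_mul, Real.sin_neg, Real.sin_pi_div_two_sub]
  have hms : ContMDiff 𝓘(ℝ, ℝ) (𝓡 2) ∞ m := by
    have h1 : ContDiff ℝ ∞ fun s : ℝ => e * (Real.pi / 2 - s) := by fun_prop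
    exact (Mer_smooth 0).comp h1.contMDiff
  have hr' : (1 : ℕ∞ω) ≤ (r : ℕ∞ω) := by exact_mod_cast hr
  have hFs : ContMDiff 𝓘(ℝ, ℝ) (𝓡 2) 1 (F ∘ m) := (F.contMDiff.of_le hr').comp (hms.of_le (by simp))
  set c : S2 → EuclideanSpace ℝ (Fin 3) := fun y => y.1 with hc
  have hcs : ContMDiff (𝓡 2) 𝓘(ℝ, EuclideanSpace ℝ (Fin 3)) 1 c :=
    contMDiff_coe_sphere (n := 2)
  set G : ℝ → EuclideanSpace ℝ (Fin 3) := fun s => c (F (m s)) with hG
  have hGs : ContDiff ℝ 1 G := (hcs.comp hFs).contDiff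
  set v := deriv G 0 with hv
  have hGd : HasDerivAt G v 0 := (hGs.differentiable (by simp) 0).hasDerivAt
  have hv0 : v ≠ 0 := by
    intro h0
    -- derivatives
    have d1 : MDifferentiableAt 𝓘(ℝ, ℝ) (𝓡 2) (F ∘ m) 0 := hFs.mdifferentiableAt (by simp)
    have d2 : MDifferentiableAt (𝓡 2) 𝓘(ℝ, EuclideanSpace ℝ (Fin 3)) c ((F ∘ m) 0) :=
      hcs.mdifferentiableAt (by simp)
    have d3 : MDifferentiableAt (𝓡 2) (𝓡 2) F.symm ((F ∘ m) 0) :=
      (F.symm.contMDiff.of_le hr').mdifferentiableAt (by simp)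
    have d4 : MDifferentiableAt 𝓘(ℝ, ℝ) (𝓡 2) m 0 := hms.mdifferentiableAt (by simp)
    have d5 : MDifferentiableAt (𝓡 2) 𝓘(ℝ, EuclideanSpace ℝ (Fin 3)) c (m 0) :=
      hcs.mdifferentiableAt (by simp)
    have e1 : mfderiv 𝓘(ℝ, ℝ) 𝓘(ℝ, EuclideanSpace ℝ (Fin 3)) (c ∘ (F ∘ m)) 0 =
        (mfderiv (𝓡 2) 𝓘(ℝ, EuclideanSpace ℝ (Fin 3)) c ((F ∘ m) 0)).comp
          (mfderiv 𝓘(ℝ, ℝ) (𝓡 2) (F ∘ m) 0) := mfderiv_comp 0 d2 d1
    have e2 : mfderiv 𝓘(ℝ, ℝ) 𝓘(ℝ, EuclideanSpace ℝ (Fin 3)) (c ∘ (F ∘ m)) 0 = fderiv ℝ G 0 :=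
      mfderiv_eq_fderiv
    have e3 : fderiv ℝ G 0 (1 : ℝ) = 0 := by
      rw [fderiv_eq_smul_deriv, ← hv, h0, smul_zero]
    have e4 : mfderiv (𝓡 2) 𝓘(ℝ, EuclideanSpace ℝ (Fin 3)) c ((F ∘ m) 0)
        (mfderiv 𝓘(ℝ, ℝ) (𝓡 2) (F ∘ m) 0 (1 : ℝ)) = 0 := by
      have := congrArg (fun L => L (1 : ℝ)) (e1.symm.trans e2)
      exact this.trans e3
    have hinj := mfderiv_coe_sphere_injective (n := 2) ((F ∘ m) 0)
    have e5 : mfderiv 𝓘(ℝ, ℝ) (𝓡 2) (F ∘ m) 0 (1 : ℝ) = 0 := by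
      apply hinj
      rw [map_zero]
      exact e4
    have e6 : mfderiv 𝓘(ℝ, ℝ) (𝓡 2) (F.symm ∘ (F ∘ m)) 0 =
        (mfderiv (𝓡 2) (𝓡 2) F.symm ((F ∘ m) 0)).comp (mfderiv 𝓘(ℝ, ℝ) (𝓡 2) (F ∘ m) 0) :=
      mfderiv_comp 0 d3 d1
    have e7 : (F.symm ∘ (F ∘ m)) = m := by
      funext s
      exact F.symm_apply_apply _
    rw [e7] at e6
    have e8 : mfderiv 𝓘(ℝ, ℝ) (𝓡 2) m 0 (1 : ℝ) = 0 := by
      rw [e6]
      show (mfderiv (𝓡 2) (𝓡 2) F.symm ((F ∘ m) 0)) (mfderiv 𝓘(ℝ, ℝ) (𝓡 2) (F ∘ m) 0 (1 : ℝ)) = 0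
      rw [e5, map_zero]
    have e9 : mfderiv 𝓘(ℝ, ℝ) 𝓘(ℝ, EuclideanSpace ℝ (Fin 3)) (c ∘ m) 0 =
        (mfderiv (𝓡 2) 𝓘(ℝ, EuclideanSpace ℝ (Fin 3)) c (m 0)).comp
          (mfderiv 𝓘(ℝ, ℝ) (𝓡 2) m 0) := mfderiv_comp 0 d5 d4
    have e10 : fderiv ℝ (c ∘ m) 0 (1 : ℝ) = 0 := by
      rw [← mfderiv_eq_fderiv, e9]
      show (mfderiv (𝓡 2) 𝓘(ℝ, EuclideanSpace ℝ (Fin 3)) c (m 0)) (mfderiv 𝓘(ℝ, ℝ) (𝓡 2) m 0 (1 : ℝ)) = 0
      rw [e8, map_zero]
    -- but the first coordinate of `c ∘ m` is `sin`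
    have hcm : ContDiff ℝ 1 (c ∘ m) := (hcs.comp (hms.of_le (by simp))).contDiff
    have e11 : HasDerivAt (c ∘ m) (0 : EuclideanSpace ℝ (Fin 3)) 0 := by
      have := (hcm.differentiable (by simp) 0).hasFDerivAt.hasDerivAt
      rwa [e10] at this
    have e12 : HasDerivAt (fun s => (c ∘ m) s 0) 0 0 := by
      have h1 := (EuclideanSpace.proj (𝕜 := ℝ) (0 : Fin 3) :
        EuclideanSpace ℝ (Fin 3) →L[ℝ] ℝ).hasFDerivAt (x := (c ∘ m) 0)
      have h2 := h1.comp_hasDerivAt 0 e11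
      rw [map_zero] at h2
      exact h2
    have e13 : (fun s => (c ∘ m) s 0) = Real.sin := by
      funext s
      show mer 0 (e * (Real.pi / 2 - s)) 0 = Real.sin s
      rw [mer_zero, Real.cos_zero, mul_one]
      rcases hee with rfl | rfl
      · rw [one_mul, Real.cos_pi_div_two_sub]
      · rw [neg_one_mul, Real.cos_neg, Real.cos_pi_div_two_sub]
    rw [e13] at e12
    have := e12.unique (Real.hasDerivAt_sin 0)
    simp at this
  refine ⟨‖v‖ ^ 2, by positivity, ?_⟩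
  -- the pole
  set Q : S2 := F (m 0) with hQ
  have huQ : u Q = e' := by
    rw [hQ, ind_spec hF, hum, Real.cos_zero, mul_one, h]
  have hval : ∀ s, (1 - e' * ind F (e * Real.cos s)) / (1 - e * (e * Real.cos s)) =
      (‖s⁻¹ • (G (0 + s) - G 0)‖ / (s⁻¹ • (2 * Real.sin ((0 + s) / 2) - 2 * Real.sin (0 / 2)))) ^ 2 ∨ s = 0 := by
    intro s
    by_cases hs : s = 0
    · right; exact hs
    left
    rw [← hum, ← ind_spec hF, one_sub_u he' huQ, hum]
    have h1 : 1 - e * (e * Real.cos s) = 2 * Real.sin (s / 2) ^ 2 := by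
      have h2 : Real.cos s = 1 - 2 * Real.sin (s / 2) ^ 2 := by
        have h3 := Real.cos_two_mul (s / 2)
        have h4 := Real.sin_sq_add_cos_sq (s / 2)
        rw [show 2 * (s / 2) = s by ring] at h3
        nlinarith
      have h5 : e * (e * Real.cos s) = e ^ 2 * Real.cos s := by ring
      rw [h5, he, h2]
      ring
    rw [h1, norm_smul, zero_add, zero_div, Real.sin_zero, mul_zero, sub_zero, smul_eq_mul, div_pow,
      mul_pow, mul_pow, norm_inv, inv_pow, inv_pow, Real.norm_eq_abs, sq_abs, mul_pow]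
    show ‖G s - G 0‖ ^ 2 / 2 / (2 * Real.sin (s / 2) ^ 2) = _
    have hs2 : s ^ 2 ≠ 0 := pow_ne_zero 2 hs
    by_cases h6 : Real.sin (s / 2) = 0
    · rw [h6]; simp
    · field_simp
  have hlim : Tendsto (fun s => (1 - e' * ind F (e * Real.cos s)) / (1 - e * (e * Real.cos s)))
      (𝓝[≠] 0) (𝓝 (‖v‖ ^ 2)) := by
    have h1 := hGd.tendsto_slope_zero
    have h2 : HasDerivAt (fun s : ℝ => 2 * Real.sin (s / 2)) 1 0 := by
      have h3 : HasDerivAt (fun s : ℝ => s / 2) (1 / 2) 0 := (hasDerivAt_id (0 : ℝ)).div_const 2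
      have h4 := (h3.sin).const_mul 2
      refine h4.congr_deriv ?_
      simp
    have h3 := h2.tendsto_slope_zero
    have h4 := (h1.norm.div h3 one_ne_zero).pow 2
    rw [div_one] at h4
    refine h4.congr' ?_
    filter_upwards [self_mem_nhdsWithin] with s hs
    rcases hval s with h | h
    · exact h.symm
    · exact absurd h hs
  -- substitution
  have hsub : Tendsto (fun z => Real.arccos (e * z)) (𝓝[Ioo (-1 : ℝ) 1] e) (𝓝[≠] 0) := by
    refine tendsto_nhdsWithin_iff.2 ⟨?_, ?_⟩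
    · have h1 : Continuous fun z => Real.arccos (e * z) :=
        Real.continuous_arccos.comp (continuous_const.mul continuous_id)
      have h2 := h1.tendsto e
      have h3 : Real.arccos (e * e) = 0 := by
        rw [← sq, he, Real.arccos_one]
      rw [h3] at h2
      exact h2.mono_left nhdsWithin_le_nhds
    · filter_upwards [self_mem_nhdsWithin] with z hz
      have h1 : e * z < 1 := by
        rcases hee with rfl | rfl
        · linarith [hz.2]
        · linarith [hz.1]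
      exact (Real.arccos_pos.2 h1).ne'
  have hfin := hlim.comp hsub
  refine hfin.congr' ?_
  filter_upwards [self_mem_nhdsWithin] with z hz
  have h1 : e * z ∈ Icc (-1 : ℝ) 1 := by
    rcases hee with rfl | rfl
    · rw [one_mul]; exact Ioo_subset_Icc_self hz
    · exact ⟨by linarith [hz.2], by linarith [hz.1]⟩
  have h2 : e * Real.cos (Real.arccos (e * z)) = z := by
    rw [Real.cos_arccos h1.1 h1.2, ← mul_assoc, ← sq, he, one_mul]
  simp only [Function.comp_apply]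
  rw [h2]

theorem ind_pole (hF : ∀ x y, u x = u y → u (F x) = u (F y)) {e : ℝ} (he : e ^ 2 = 1) :
    ind F e ^ 2 = 1 := by
  -- the preimages of the poles are poles
  have hN : ∀ e : ℝ, e ^ 2 = 1 → ∃ y : S2, u y = e := by
    intro e he
    have hm : e ∈ Icc (-1 : ℝ) 1 := abs_le.1 (abs_le_one_iff_mul_self_le_one.2 (by nlinarith))
    exact ⟨Mer 0 (Real.arcsin e), by rw [u_Mer, Real.sin_arcsin hm.1 hm.2]⟩
  have hpre : ∀ e : ℝ, e ^ 2 = 1 → ∃ e1 : ℝ, e1 ^ 2 = 1 ∧ ind F e1 = e := by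
    intro e he
    obtain ⟨y, hy⟩ := hN e he
    refine ⟨u (F.symm y), ?_, ?_⟩
    · by_contra hne
      have := nonpole hF hne
      rw [show F (F.symm y) = y from F.apply_symm_apply _, hy] at this
      exact this he
    · rw [← ind_spec hF, show F (F.symm y) = y from F.apply_symm_apply _, hy]
  obtain ⟨a, ha, ha'⟩ := hpre 1 (by norm_num)
  obtain ⟨b, hb, hb'⟩ := hpre (-1) (by norm_num)
  have hab : a ≠ b := by
    intro h
    rw [h, hb'] at ha'
    norm_num at ha'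
  have hcase : ∀ e : ℝ, e ^ 2 = 1 → e = 1 ∨ e = -1 := by
    intro e he
    have : (e - 1) * (e + 1) = 0 := by nlinarith
    rcases mul_eq_zero.1 this with h | h
    · left; linarith
    · right; linarith
  have : e = a ∨ e = b := by
    rcases hcase a ha with h1 | h1 <;> rcases hcase b hb with h2 | h2 <;>
      rcases hcase e he with h3 | h3
    · exact absurd (h1.trans h2.symm) hab
    · exact absurd (h1.trans h2.symm) hab
    · exact Or.inl (h3.trans h1.symm)
    · exact Or.inr (h3.trans h2.symm)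
    · exact Or.inr (h3.trans h2.symm)
    · exact Or.inl (h3.trans h1.symm)
    · exact absurd (h1.trans h2.symm) hab
    · exact absurd (h1.trans h2.symm) hab
  rcases this with rfl | rfl
  · rw [ha']; norm_num
  · rw [hb']; norm_num

end

theorem map : S_MAP := by
  intro r hr F hF
  refine ⟨ind F, ind_spec hF, ?_⟩
  have hder : ∀ z ∈ Ioo (-1 : ℝ) 1, HasDerivWithinAt (ind F) (deriv (ind F) z) (Ioo (-1 : ℝ) 1) z :=
    fun z hz => ((ind_smooth hr hz).differentiableAt (by simp)).hasDerivAt.hasDerivWithinAt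
  have hcase : ∀ e : ℝ, e ^ 2 = 1 → e = 1 ∨ e = -1 := by
    intro e he
    have : (e - 1) * (e + 1) = 0 := by nlinarith
    rcases mul_eq_zero.1 this with h | h
    · left; linarith
    · right; linarith
  have h1 : ind F 1 = 1 ∨ ind F 1 = -1 := hcase _ (ind_pole hF (by norm_num))
  have h2 : ind F (-1) = 1 ∨ ind F (-1) = -1 := hcase _ (ind_pole hF (by norm_num))
  rcases hasDerivWithinAt_forall_lt_or_forall_gt_of_forall_ne (convex_Ioo (-1 : ℝ) 1) hder
    (m := 0) (fun z hz => ind_deriv hr hF hz) with hneg | hpos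
  · right
    have hanti : StrictAntiOn (ind F) (Icc (-1 : ℝ) 1) := by
      refine strictAntiOn_of_deriv_neg (convex_Icc _ _) (ind_cont F).continuousOn ?_
      intro z hz
      rw [interior_Icc] at hz
      exact hneg z hz
    have hlt := hanti (left_mem_Icc.2 (by norm_num)) (right_mem_Icc.2 (by norm_num))
      (show (-1 : ℝ) < 1 by norm_num)
    have e1 : ind F 1 = -1 := by
      rcases h1 with h | h
      · rcases h2 with h' | h' <;> rw [h, h'] at hlt <;> norm_num at hlt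
      · exact h
    have e2 : ind F (-1) = 1 := by
      rcases h2 with h | h
      · exact h
      · rw [h, e1] at hlt; norm_num at hlt
    refine ⟨?_, ?_, ?_, ?_, ?_, ?_, ?_⟩
    · rw [e2]
    · rw [e1]; norm_num
    · exact (ind_cont F).neg.continuousOn
    · intro x hx y hy hxy
      exact neg_lt_neg (hanti hx hy hxy)
    · intro z hz
      refine ⟨(ind_smooth hr hz).neg, ?_⟩
      have : deriv (fun z => -ind F z) z = -deriv (ind F) z := deriv.fun_neg
      rw [this]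
      exact neg_ne_zero.2 (ind_deriv hr hF hz)
    · obtain ⟨μ, hμ, h⟩ := ind_end hr hF (e := 1) (e' := -1) (by norm_num) (by norm_num) e1
      refine ⟨μ, hμ, ?_⟩
      rw [nhdsWithin_Ioo_eq_nhdsLT (show (-1 : ℝ) < 1 by norm_num)] at h
      refine h.congr fun z => ?_
      ring
    · obtain ⟨μ, hμ, h⟩ := ind_end hr hF (e := -1) (e' := 1) (by norm_num) (by norm_num) e2
      refine ⟨μ, hμ, ?_⟩
      rw [nhdsWithin_Ioo_eq_nhdsGT (show (-1 : ℝ) < 1 by norm_num)] at h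
      refine h.congr fun z => ?_
      congr 1 <;> ring
  · left
    have hmono : StrictMonoOn (ind F) (Icc (-1 : ℝ) 1) := by
      refine strictMonoOn_of_deriv_pos (convex_Icc _ _) (ind_cont F).continuousOn ?_
      intro z hz
      rw [interior_Icc] at hz
      exact hpos z hz
    have hlt := hmono (left_mem_Icc.2 (by norm_num)) (right_mem_Icc.2 (by norm_num))
      (show (-1 : ℝ) < 1 by norm_num)
    have e1 : ind F 1 = 1 := by
      rcases h1 with h | h
      · exact h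
      · rcases h2 with h' | h' <;> rw [h, h'] at hlt <;> norm_num at hlt
    have e2 : ind F (-1) = -1 := by
      rcases h2 with h | h
      · rw [h, e1] at hlt; norm_num at hlt
      · exact h
    refine ⟨e2, e1, (ind_cont F).continuousOn, hmono, ?_, ?_, ?_⟩
    · intro z hz
      exact ⟨ind_smooth hr hz, ind_deriv hr hF hz⟩
    · obtain ⟨μ, hμ, h⟩ := ind_end hr hF (e := 1) (e' := 1) (by norm_num) (by norm_num) e1
      refine ⟨μ, hμ, ?_⟩
      rw [nhdsWithin_Ioo_eq_nhdsLT (show (-1 : ℝ) < 1 by norm_num)] at h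
      refine h.congr fun z => ?_
      congr 1 <;> ring
    · obtain ⟨μ, hμ, h⟩ := ind_end hr hF (e := -1) (e' := -1) (by norm_num) (by norm_num) e2
      refine ⟨μ, hμ, ?_⟩
      rw [nhdsWithin_Ioo_eq_nhdsGT (show (-1 : ℝ) < 1 by norm_num)] at h
      refine h.congr fun z => ?_
      congr 1 <;> ring

end Pool.Agent.T9h79.SP
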