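import Pool.Agent.R475.AW
import Pool.Agent.R956.K7

/-!
# The numbers of self-avoiding polygons of the square lattice satisfy the hypotheses of the theory of
sequences with Kesten's inequality
-/

set_option autoImplicit false

namespace Pool.Agent.T9h79.SP

open Filter Topology
open Pool.Agent.R475.AL Pool.Agent.R956.K1 Pool.Agent.R956.K6

lemma nc_congr {f g : ℕ → ℝ} {D : ℝ} (h : Nc f D) (e : ∀ᶠ k : ℕ in atTop, f k = g k) : Nc g D := by
  obtain ⟨N, hN⟩ := eventually_atTop.1 e
  refine ⟨h.D0, ?_, ?_⟩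
  · filter_upwards [h.conv, eventually_ge_atTop N] with k h1 h2
    rw [← hN k h2, ← hN (k + 1) (by omega), ← hN (k + 2) (by omega)]
    exact h1
  · refine h.inc.congr' ?_
    filter_upwards [eventually_ge_atTop N] with k h2
    rw [hN k h2, hN (k + 1) (by omega)]

/-- near convexity gives Kesten's inequality -/
lemma kc_of_nc {y : ℕ → ℝ} {D : ℝ} (h0 : ∀ k, 0 ≤ y k) (hp : ∀ᶠ k : ℕ in atTop, 0 < y k)
    (h : Nc (fun k => Real.log (y k)) D) : Kc y (D * Real.exp D) := by
  have hD := h.D0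
  refine ⟨h0, hp, by positivity, ?_⟩
  obtain ⟨N, hN⟩ := eventually_atTop.1 hp
  filter_upwards [h.conv, eventually_ge_atTop (N + 1)] with k hk hkN
  have p0 := hN k (by omega)
  have p1 := hN (k + 1) (by omega)
  have p2 := hN (k + 2) (by omega)
  have hk0 : (0 : ℝ) < k := by exact_mod_cast (show 0 < k by omega)
  have hk1 : (1 : ℝ) ≤ k := by exact_mod_cast (show 1 ≤ k by omega)
  have hDk : D / k ≤ D := div_le_self hD hk1
  have hDk0 : 0 ≤ D / k := by positivity
  have e1 : Real.exp (D / k) ≤ 1 + D * Real.exp D / k := by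
    have h1 : Real.exp (D / k) * (1 - D / k) ≤ 1 := by
      have h2 : 1 - D / k ≤ Real.exp (-(D / k)) := by
        have := Real.add_one_le_exp (-(D / k))
        linarith
      calc Real.exp (D / k) * (1 - D / k) ≤ Real.exp (D / k) * Real.exp (-(D / k)) :=
            mul_le_mul_of_nonneg_left h2 (Real.exp_pos _).le
        _ = 1 := by rw [← Real.exp_add]; simp
    have h3 : Real.exp (D / k) ≤ Real.exp D := Real.exp_le_exp.2 hDk
    have h4 : Real.exp (D / k) * (D / k) ≤ Real.exp D * (D / k) :=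
      mul_le_mul_of_nonneg_right h3 hDk0
    have h5 : Real.exp D * (D / k) = D * Real.exp D / k := by ring
    linarith
  have e2 : y (k + 1) ^ 2 ≤ y k * y (k + 2) * Real.exp (D / k) := by
    rw [← Real.log_le_log_iff (by positivity) (by positivity), Real.log_pow,
      Real.log_mul (by positivity) (Real.exp_pos _).ne', Real.log_mul p0.ne' p2.ne', Real.log_exp]
    push_cast
    exact hk
  exact e2.trans (mul_le_mul_of_nonneg_left e1 (by positivity))

lemma bv_of_nc {f : ℕ → ℝ} {D : ℝ} (h : Nc f D) : Bv f :=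
  bv_of_conv h.D0 h.conv h.inc1

/-! ### polygons -/

theorem KP_card {N : ℕ} (hN : 2 ≤ N) :
    ((Pool.Agent.H739K.KP (2 * N - 1)).card : ℝ) = 4 * N * H981.PP N := by
  have h := (Pool.Agent.H739K.CONV_proof N hN).2.1
  unfold H981.PP
  have hN0 : (0 : ℝ) < N := by exact_mod_cast (by omega : 0 < N)
  have e : (Nat.card {f : ZMod (2 * N) → ℤ × ℤ // H981.IsLoop (2 * N) f}) =
      {f : ZMod (2 * N) → ℤ × ℤ | Pool.Agent.H924P.IsLoop (2 * N) f}.ncard := rfl
  rw [e, h]
  field_simp

/-- the normalised numbers of polygons -/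
noncomputable def y (k : ℕ) : ℝ := H981.PP k / H981.mu ^ (2 * k)

lemma PP_nonneg (k : ℕ) : 0 ≤ H981.PP k := by
  unfold H981.PP
  positivity

lemma y_nonneg (k : ℕ) : 0 ≤ y k :=
  div_nonneg (PP_nonneg k) (pow_nonneg H981.mu_pos.le _)

lemma y_pos {k : ℕ} (hk : 2 ≤ k) : 0 < y k :=
  div_pos (Pool.Agent.H739K.PP_pos' hk) (pow_pos H981.mu_pos _)

theorem nc_y : ∃ D : ℝ, Nc (fun k => Real.log (y k)) D := by
  obtain ⟨D, h1, h2⟩ := nc_card
  have h3 := (h1.add (nc_log (-1))).add (nc_const (-(Real.log 4)))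
  refine ⟨_, nc_congr h3 ?_⟩
  filter_upwards [eventually_ge_atTop 2] with k hk
  have hk0 : (0 : ℝ) < k := by exact_mod_cast (show 0 < k by omega)
  have hP := Pool.Agent.H739K.PP_pos' hk
  have hmu := H981.mu_pos
  rw [KP_card hk]
  unfold y
  rw [Real.log_div hP.ne' (pow_pos hmu _).ne', Real.log_mul (by positivity) hP.ne',
    Real.log_mul (by norm_num) hk0.ne', Real.log_pow, Real.log_pow]
  push_cast
  ring

theorem kc_y : ∃ D : ℝ, Kc y D := by
  obtain ⟨D, h⟩ := nc_y
  exact ⟨_, kc_of_nc y_nonneg (by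
    filter_upwards [eventually_ge_atTop 2] with k hk
    exact y_pos hk) h⟩

end Pool.Agent.T9h79.SP
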